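import Mathlib
import Pool.Agent.H81.InterBody

namespace Pool.Agent.Results.MP_4e5529_gt.Increase

open Pool.Agent.H81.InterBody

theorem result : ∃ n : ℕ, 3 ≤ n ∧ ∃ K : Set (EuclideanSpace ℝ (Fin n)), IsSymmBody K ∧
    bmDist K (Metric.closedBall 0 1) < bmDist (interBody K) (Metric.closedBall 0 1) :=
  ⟨3, le_rfl, K, K_body, main⟩

end Pool.Agent.Results.MP_4e5529_gt.Increase
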